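import Pool.Agent.H88.B2.Targets2

/-! DA1: elementary consequences of the data. -/

set_option autoImplicit false

namespace Pool.Agent.H35.B2.DA1

open Pool.Agent.H83.G Pool.Agent.H88.B2 Pool.Agent.H22.G4
open MeasureTheory
open scoped RealInnerProductSpace ENNReal

theorem rg_half {κ c : ℝ} (hκ : κ ≤ 3 / 8) (hc : 0 ≤ c) {ζ : Z 2}
    (hζ : ζ ∈ Rg 2 κ c) : ζ ∈ Rg 2 (1 / 2) c := by
  obtain ⟨h1, h2, h3, h4⟩ := hζ
  have h5 : 0 ≤ ζ.1 := by linarith
  refine ⟨by linarith, by linarith, h3.trans ?_, h4.trans ?_⟩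
  · exact mul_le_mul_of_nonneg_right (by linarith) h5
  · exact mul_le_mul_of_nonneg_right (by linarith) hc

/-- a plank of positive amplitude has a frequency -/
theorem freq {N : ℕ} {β : E 2 → ℂ} {R δ κ : ℝ} {G : Z 2 → ℂ} {W : Pk 2} (hβ : IsPU β)
    (hR : 0 < R) (_h0 : 0 ≤ κ) (hκ : κ ≤ 3 / 8) (hG : ∀ ζ, G ζ ≠ 0 → ζ ∈ Rg 2 κ R⁻¹)
    (ha : 0 < al N β R δ G W) : ‖ctr (sR R) W.1‖ ≤ 11 / 8 + sR R := by
  have hs : 0 < sR R := by
    unfold sR
    exact inv_pos.2 (Real.sqrt_pos.2 hR)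
  by_contra hcon
  push Not at hcon
  have h1 : ∀ ζ, cp β (ctr (sR R) W.1) (sR R) ζ * G ζ = 0 := by
    intro ζ
    by_contra h2
    have h3 := left_ne_zero_of_mul h2
    have h4 := right_ne_zero_of_mul h2
    obtain ⟨h5, h6, h7, h8⟩ := hG ζ h4
    have h9 : 0 < ζ.1 := by linarith
    have h10 : ‖ζ.1⁻¹ • ζ.2.1‖ ≤ 11 / 8 := by
      rw [norm_smul, Real.norm_eq_abs, abs_of_pos (inv_pos.2 h9), inv_mul_le_iff₀ h9]
      refine h7.trans ?_
      rw [mul_comm]
      exact mul_le_mul_of_nonneg_left (by linarith) h9.le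
    apply h3
    unfold cp
    refine hβ.2.1 _ ?_
    rw [norm_smul, Real.norm_eq_abs, abs_of_pos (inv_pos.2 hs), le_inv_mul_iff₀ hs, mul_one]
    have h11 := norm_sub_norm_le (ctr (sR R) W.1) (ζ.1⁻¹ • ζ.2.1)
    rw [norm_sub_rev] at h11
    linarith
  have h2 : ∀ z, TP β (ctr (sR R) W.1) (sR R) G z = 0 := by
    intro z
    unfold TP TF
    simp only [h1, mul_zero, integral_zero]
  have h3 : al N β R δ G W = 0 := by
    unfold al al2
    simp only [h2, enorm_zero, ne_eq, OfNat.ofNat_ne_zero, not_false_eq_true, zero_pow, zero_mul,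
      lintegral_zero, mul_zero, ENNReal.toReal_zero, Real.sqrt_zero]
  linarith

theorem ind_mono {j : ℕ} {c c' : ℝ} {η : Fin j → E 2} (h : Ind c η) (hc : c' ≤ c) :
    Ind c' η := fun a =>
  (mul_le_mul_of_nonneg_right hc (Finset.sum_nonneg fun _ _ => abs_nonneg _)).trans (h a)

theorem pf_DA1 (hAMU : T_AMU) (hTLS : T_TLS) (hPTW : T_PTW) (hCBN : T_CBN) (hIN1 : T_IN1)
    (hIN2 : T_IN2) (hWWE : T_WWE) (hWT1 : T_WT1) : T_DA1 := by
  classical
  intro L β Ψ ψ δ b₀ B ε₀
  refine ⟨5, fun N hN => ?_⟩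
  by_cases hall : IsPU β ∧ IsPsi Ψ ψ ∧ 0 < δ ∧ δ ≤ 1 / 10000 ∧ 0 < b₀
  swap
  · refine ⟨1, le_refl _, ?_⟩
    intro κ R P A H En G c z₀ S a b l k QQ X hC hD
    exact absurd ⟨hD.pu, hD.psi, hD.d0, hD.d1, hD.b0⟩ hall
  obtain ⟨hβ, hψ, hδ, hδ1, hb₀⟩ := hall
  obtain ⟨C₁, hC₁, k1⟩ := hAMU 2 L N β δ hβ hδ.le (by omega)
  obtain ⟨C₂, hC₂, k2⟩ := hTLS 2 L N β Ψ ψ δ 2 hβ hψ hδ (by linarith) (by omega)
  obtain ⟨C₃, hC₃, k3⟩ := hPTW 2 N (2 * N) β Ψ ψ δ hβ hψ hδ.le
  obtain ⟨k4, k5, C₄, hC₄, k6, k7⟩ := hCBN 2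
  have hp1 : 0 < C₂ / b₀ := by positivity
  have hp2 : 0 < 2 * C₁ * C₃ / b₀ := by positivity
  refine ⟨C₁ + C₂ / b₀ + 2 * C₁ * C₃ / b₀ + C₄ + 50, by linarith, ?_⟩
  intro κ R P A H En G c z₀ S a b l k QQ X hC hD hX
  obtain ⟨z₁, hz₁⟩ := hX
  have hR := hD.R1
  have hR0 : 0 < R := by linarith
  have hκ := hD.k1
  have hκ0 := hD.k0
  have hA := hD.A0
  have hH := hD.H0
  have ha := hD.a0
  have hP := hD.P1
  have hRδ : 0 < R ^ δ := Real.rpow_pos_of_pos hR0 δ
  -- the families are nonempty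
  have hne : ∀ z ∈ X, ∀ i, (Sz R δ ε₀ l k QQ (S i) z).Nonempty := by
    intro z hz i
    by_contra h1
    rw [Finset.not_nonempty_iff_eq_empty] at h1
    have h2 := hD.FH z hz i
    rw [h1, Finset.sum_empty, norm_zero] at h2
    linarith
  have hsub : ∀ z i, Sz R δ ε₀ l k QQ (S i) z ⊆ S i := by
    intro z i
    unfold Sz SB
    exact Finset.filter_subset _ _
  have hSn : ∀ i, ∃ W, W ∈ S i := by
    intro i
    obtain ⟨W, hW⟩ := hne z₁ hz₁ i
    exact ⟨W, hsub z₁ i hW⟩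
  -- the bound of `a`
  have haC : a ≤ C₁ * A := by
    obtain ⟨W, hW⟩ := hSn 0
    exact ((hD.pk 0 W hW).2.2.2.2.1).trans
      (k1 κ R A (G 0) W hκ0 (by linarith) hR hA (hD.cls 0)).1
  have hsq : (50 : ℝ) ≤ Real.sqrt R := by
    rw [Real.sqrt_eq_rpow]
    refine le_trans ?_ (Real.rpow_le_rpow_of_exponent_le hR (by linarith : δ ≤ 1 / 2))
    linarith
  have hsR : sR R ≤ 1 / 50 := by
    unfold sR
    rw [one_div]
    exact inv_anti₀ (by norm_num) hsq
  have hP4 : 1 / (400 * P) ≤ 1 / 400 :=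
    one_div_le_one_div_of_le (by norm_num) (by linarith)
  have hc7 : ∀ i, ‖c i‖ ≤ 7 / 5 := by
    intro i
    obtain ⟨W, hW⟩ := hSn i
    obtain ⟨h1, h2, h3, h4, h5, h6⟩ := hD.pk i W hW
    have h7 := freq hβ hR0 hκ0 hκ (hD.cls i).2.1 (ha.trans_le h5)
    have h8 := norm_sub_norm_le (c i) (ctr (sR R) W.1)
    rw [norm_sub_rev] at h8
    linarith
  have hInd : ∀ W : Fin 4 → Pk 2, (∀ i, W i ∈ S i) →
      Ind (2 * P)⁻¹ fun i => ctr (sR R) (W i).1 := by
    intro W hW
    have h1 := hIN1 2 4 P⁻¹ 3 (1 / (400 * P)) c (fun i => ctr (sR R) (W i).1) (by norm_num)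
      (by positivity) (fun i => (hc7 i).trans (by norm_num))
      (fun i => (hD.pk i (W i) (hW i)).2.2.1) (fun i => by
        rw [norm_sub_rev]
        exact (hD.pk i (W i) (hW i)).2.2.2.1) hD.ind
    refine ind_mono h1 ?_
    have h2 : (2 * P)⁻¹ = P⁻¹ / 2 := by
      rw [mul_inv]
      ring
    have h3 : (2 * 3 + 1) * (1 / (400 * P)) = P⁻¹ * (7 / 400) := by
      field_simp
      norm_num
    have h4 : 0 < P⁻¹ := by positivity
    rw [h2, h3]
    linarith
  have hpair : ∀ i j, i ≠ j → ∀ W ∈ S i, ∀ W' ∈ S j,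
      (8 * P)⁻¹ ≤ ‖ctr (sR R) W'.1 - ctr (sR R) W.1‖ := by
    intro i j hij W hW W' hW'
    choose V hV using hSn
    have h1 := hInd (Function.update (Function.update V i W) j W') (by
      intro k
      by_cases h2 : k = j
      · subst h2
        rw [Function.update_self]
        exact hW'
      · rw [Function.update_of_ne h2]
        by_cases h3 : k = i
        · subst h3
          rw [Function.update_self]
          exact hW
        · rw [Function.update_of_ne h3]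
          exact hV k)
    have h4 := hIN2 2 4 (2 * P)⁻¹ 3 _ (by norm_num) (fun k => ?_) h1 j i (Ne.symm hij)
    · rw [Function.update_self, Function.update_of_ne hij, Function.update_self] at h4
      refine le_trans (le_of_eq ?_) h4
      rw [mul_inv, mul_inv]
      ring
    · by_cases h2 : k = j
      · subst h2
        rw [Function.update_self]
        exact (hD.pk _ W' hW').2.2.1
      · rw [Function.update_of_ne h2]
        by_cases h3 : k = i
        · subst h3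
          rw [Function.update_self]
          exact (hD.pk _ W hW).2.2.1
        · rw [Function.update_of_ne h3]
          exact (hD.pk _ (V k) (hV k)).2.2.1
  have hbA : ∀ i : Fin 4, b₀ * A ≤ R ^ δ * H := fun _ => hD.HA
  refine ⟨haC.trans (mul_le_mul_of_nonneg_right (by linarith) hA.le), hc7, hInd, hpair, ?_, ?_⟩
  · intro z hz i
    have hF := hD.FH z hz i
    refine ⟨?_, ?_, ?_⟩
    · -- a near plank
      have h1 : ∃ W ∈ Sz R δ ε₀ l k QQ (S i) z, near R δ W z := by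
        by_contra h2
        push Not at h2
        have h3 := (k2 κ R A (G i) (Sz R δ ε₀ l k QQ (S i) z) z hκ0 (by linarith) hR hA
          (hD.cls i) (fun W hW => (hD.pk i W (hsub z i hW)).1)).1 h2
        have h4 : H ≤ C₂ * A * R ^ (-(2 : ℝ)) := hF.trans ((norm_sum_le _ _).trans h3)
        have h5 : b₀ * A ≤ R ^ δ * (C₂ * A * R ^ (-(2 : ℝ))) :=
          (hbA i).trans (mul_le_mul_of_nonneg_left h4 hRδ.le)
        have h6 : R ^ δ * R ^ (-(2 : ℝ)) ≤ (R ^ δ)⁻¹ := by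
          rw [← Real.rpow_add hR0, ← Real.rpow_neg hR0.le]
          exact Real.rpow_le_rpow_of_exponent_le hR (by linarith)
        have h7 : b₀ * A ≤ C₂ * A * (R ^ δ)⁻¹ := by
          refine h5.trans ?_
          have : R ^ δ * (C₂ * A * R ^ (-(2 : ℝ))) = C₂ * A * (R ^ δ * R ^ (-(2 : ℝ))) := by
            ring
          rw [this]
          exact mul_le_mul_of_nonneg_left h6 (by positivity)
        have h8 : b₀ ≤ C₂ * (R ^ δ)⁻¹ := by
          refine le_of_mul_le_mul_right ?_ hA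
          linarith
        have h9 : b₀ * R ^ δ ≤ C₂ := by
          have := mul_le_mul_of_nonneg_right h8 hRδ.le
          rwa [mul_assoc C₂, inv_mul_cancel₀ hRδ.ne', mul_one] at this
        have h10 : R ^ δ ≤ C₂ / b₀ := by
          rw [le_div_iff₀ hb₀, mul_comm]
          exact h9
        linarith
      obtain ⟨W, hW, hWz⟩ := h1
      have h3 : W ∈ S i ∧ Sh QQ R (R ^ (1 - ε₀)) δ l k (tb R W) (Bz R ε₀ z) := by
        unfold Sz SB at hW
        exact Finset.mem_filter.1 hW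
      unfold Mt
      refine Finset.card_pos.2 ⟨tb R W, Finset.mem_filter.2
        ⟨Finset.mem_image_of_mem _ h3.1, k5 R δ W z hR hδ.le hWz, h3.2⟩⟩
    · -- the lower bound
      have h1 : H ≤ ∑ W ∈ Sz R δ ε₀ l k QQ (S i) z,
          C₃ * R ^ (2 * δ) * (2 * a) * ww N R δ (R ^ δ) W z := by
        refine hF.trans ((norm_sum_le _ _).trans (Finset.sum_le_sum fun W hW => ?_))
        have h2 := k3 R (G i) W z hR (hD.cls i).1 (fun ζ hζ =>
          rg_half hκ (inv_nonneg.2 hR0.le) ((hD.cls i).2.1 ζ hζ))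
        have h3 : R ^ (δ * (((2 : ℕ) : ℝ) + 2) / 2) = R ^ (2 * δ) := by
          congr 1
          push_cast
          ring
        rw [h3] at h2
        refine h2.trans ?_
        have h4 := (hD.pk i W (hsub z i hW)).2.2.2.2
        have h5 := ((hWWE 2 N R δ W hR0).2.2.2.2 z).1
        have h6 : 0 < wt (2 * N) (fc R δ W.1 z - zc W.2) := ((hWT1 2 (2 * N)).1 _).1
        have h7 : 0 < C₃ * R ^ (2 * δ) := by positivity
        exact mul_le_mul (mul_le_mul_of_nonneg_left h4.2 h7.le) h5 h6.le (by positivity)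
      rw [← Finset.mul_sum] at h1
      have h2 : ∑ W ∈ Sz R δ ε₀ l k QQ (S i) z, ww N R δ (R ^ δ) W z =
          Nd N R δ (R ^ δ) (Sz R δ ε₀ l k QQ (S i) z) z := rfl
      rw [h2] at h1
      obtain ⟨n, hn⟩ : ∃ n, n = Nd N R δ (R ^ δ) (Sz R δ ε₀ l k QQ (S i) z) z := ⟨_, rfl⟩
      rw [← hn] at h1 ⊢
      have hn0 : 0 ≤ n := by
        rw [hn]
        exact Finset.sum_nonneg fun W _ => ((hWWE 2 N R δ W hR0).1 _ _).1.le
      -- `b₀ a / C₁ ≤ b₀ A ≤ R^δ H ≤ R^δ C₃ R^(2δ) 2 a n`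
      have h3 : b₀ * (a / C₁) ≤ R ^ δ * (C₃ * R ^ (2 * δ) * (2 * a) * n) := by
        have h4 : a / C₁ ≤ A := by
          rw [div_le_iff₀ hC₁, mul_comm]
          exact haC
        exact (mul_le_mul_of_nonneg_left h4 hb₀.le).trans ((hbA i).trans
          (mul_le_mul_of_nonneg_left h1 hRδ.le))
      have h5 : b₀ ≤ 2 * C₁ * C₃ * (R ^ (3 * δ) * n) := by
        have h6 : R ^ (3 * δ) = R ^ δ * R ^ (2 * δ) := by
          rw [← Real.rpow_add hR0]
          congr 1
          ring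
        have h7 : b₀ * (a / C₁) * (C₁ / a) = b₀ := by
          field_simp
        have h8 : R ^ δ * (C₃ * R ^ (2 * δ) * (2 * a) * n) * (C₁ / a) =
            2 * C₁ * C₃ * (R ^ (3 * δ) * n) := by
          rw [h6]
          field_simp
        rw [← h7, ← h8]
        exact mul_le_mul_of_nonneg_right h3 (by positivity)
      have h9 : 1 ≤ R ^ δ * (R ^ (3 * δ) * n) := by
        have h10 : 1 ≤ (2 * C₁ * C₃ / b₀) * (R ^ (3 * δ) * n) := by
          rw [div_mul_eq_mul_div, le_div_iff₀ hb₀, one_mul]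
          exact h5
        refine h10.trans (mul_le_mul_of_nonneg_right ?_ (by positivity))
        linarith
      have h11 : R ^ (-(4 * δ)) ≤ n := by
        have h12 : R ^ (4 * δ) = R ^ δ * R ^ (3 * δ) := by
          rw [← Real.rpow_add hR0]
          congr 1
          ring
        rw [Real.rpow_neg hR0.le, inv_le_iff_one_le_mul₀ (by positivity), h12]
        linarith
      refine le_trans (Real.rpow_le_rpow_of_exponent_le hR (by linarith)) h11
    · intro w
      refine le_trans ?_ (hD.card i)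
      refine le_trans ?_ (Nat.cast_le.2 (Finset.card_le_card (hsub z i)))
      have h1 : ∀ W ∈ Sz R δ ε₀ l k QQ (S i) z, ww N R δ w W z ≤ 1 :=
        fun W _ => ((hWWE 2 N R δ W hR0).1 w z).2
      refine (Finset.sum_le_sum h1).trans (le_of_eq ?_)
      rw [Finset.sum_const, nsmul_eq_mul, mul_one]
  · have h1 : X.image (Bz R ε₀) ⊆ QQ.image (bl R (R ^ (1 - ε₀))) := by
      intro j hj
      obtain ⟨z, hz, rfl⟩ := Finset.mem_image.1 hj
      exact Finset.mem_image_of_mem _ (hD.cube z hz)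
    have he0 := hD.e0
    have h2 := k7 R (R ^ (1 - ε₀)) z₀ QQ (Real.rpow_pos_of_pos hR0 _) (by
      refine (Real.rpow_le_rpow_of_exponent_le hR (by linarith : 1 - ε₀ ≤ 1)).trans ?_
      rw [Real.rpow_one]) hR (fun q hq => (hD.cubes q hq).trans (le_of_eq (by norm_num)))
    have h3 : (R / R ^ (1 - ε₀)) ^ (2 + 2) = R ^ (4 * ε₀) := by
      have h4 : R / R ^ (1 - ε₀) = R ^ ε₀ := by
        rw [Real.rpow_sub hR0, Real.rpow_one]
        field_simp
      rw [h4, ← Real.rpow_natCast, ← Real.rpow_mul hR0.le]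
      congr 1
      push_cast
      ring
    rw [h3] at h2
    refine (Nat.cast_le.2 (Finset.card_le_card h1)).trans (h2.trans ?_)
    exact mul_le_mul_of_nonneg_right (by linarith) (by positivity)

end Pool.Agent.H35.B2.DA1
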